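import Pool.Agent.W_MP_c3a542_nt.Final

/-!
The parity-perturbed Conway-Mallows sequence `b` is defined for every `n`, and `b n / n` converges
to the real root `ρ = 0.3176…` of `ρ = (1 - ρ)³`, not to `(√5 - 1)/4 = 0.3090…`.
-/

set_option autoImplicit false

open Filter Topology

namespace Pool.Agent.Results.MP_c3a542_nt.TrueLimit

/-- `b` is given by `b 1 = b 2 = 1` and `b n = b (b (n-1)) + b (n - b (n-1)) + (-1)^n` for `n ≥ 3`,
and for every `n ≥ 3` both indices `b (n-1)` and `n - b (n-1)` lie in `{1, …, n-1}`.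
(The value `b 0` is not constrained.) -/
structure IsPerturbed (b : ℕ → ℤ) : Prop where
  one : b 1 = 1
  two : b 2 = 1
  range_left : ∀ n : ℕ, 3 ≤ n → 1 ≤ b (n - 1) ∧ b (n - 1) ≤ (n : ℤ) - 1
  range_right : ∀ n : ℕ, 3 ≤ n → 1 ≤ (n : ℤ) - b (n - 1) ∧ (n : ℤ) - b (n - 1) ≤ (n : ℤ) - 1
  step : ∀ n : ℕ, 3 ≤ n →
    b n = b (b (n - 1)).toNat + b ((n : ℤ) - b (n - 1)).toNat + (-1) ^ n

open Pool.Agent.W_MP_c3a542_nt in
theorem isPerturbed_bC : IsPerturbed bC where
  one := bC_one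
  two := bC_two
  range_left := fun n hn => ⟨(bC_rec n hn).1, (bC_rec n hn).2.1⟩
  range_right := fun n hn => ⟨(bC_rec n hn).2.2.1, (bC_rec n hn).2.2.2.1⟩
  step := fun n hn => (bC_rec n hn).2.2.2.2

theorem IsPerturbed.unique {b b' : ℕ → ℤ} (H : IsPerturbed b) (H' : IsPerturbed b') (n : ℕ)
    (hn : 1 ≤ n) : b n = b' n := by
  induction n using Nat.strong_induction_on with
  | _ n ih =>
    rcases Nat.lt_or_ge n 3 with h | h
    · have h12 : n = 1 ∨ n = 2 := by omega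
      rcases h12 with rfl | rfl
      · rw [H.one, H'.one]
      · rw [H.two, H'.two]
    · have h1 := ih (n - 1) (by omega) (by omega)
      have h2 := H.range_left n h
      have h3 := H.range_right n h
      rw [H.step n h, H'.step n h, ← h1, ih (b (n - 1)).toNat (by omega) (by omega),
        ih ((n : ℤ) - b (n - 1)).toNat (by omega) (by omega)]

/-- The sequence `b` is defined for all `n`, and `b n / n` converges to the root of
`ρ = (1 - ρ)³` in `(0.3176, 0.3177)`; in particular it does not converge to `(√5 - 1)/4`. -/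
theorem result :
    (∃ b : ℕ → ℤ, IsPerturbed b) ∧
    ∀ b : ℕ → ℤ, IsPerturbed b →
      (∃ ρ : ℝ, ρ = (1 - ρ) ^ 3 ∧ 0.3176 < ρ ∧ ρ < 0.3177 ∧
        Tendsto (fun n : ℕ => (b n : ℝ) / (n : ℝ)) atTop (𝓝 ρ)) ∧
      ¬ Tendsto (fun n : ℕ => (b n : ℝ) / (n : ℝ)) atTop (𝓝 ((√5 - 1) / 4)) := by
  refine ⟨⟨_, isPerturbed_bC⟩, fun b H => ?_⟩
  obtain ⟨ρ, h1, h2, h3, h4⟩ := Pool.Agent.W_MP_c3a542_nt.bC_limit
  have h5 : Tendsto (fun n : ℕ => (b n : ℝ) / (n : ℝ)) atTop (𝓝 ρ) := by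
    refine h4.congr' ?_
    filter_upwards [eventually_ge_atTop 1] with n hn
    rw [H.unique isPerturbed_bC n hn]
  refine ⟨⟨ρ, h1, h2, h3, h5⟩, fun h6 => ?_⟩
  have h7 := tendsto_nhds_unique h5 h6
  have h8 : √5 < 2.24 := by
    rw [Real.sqrt_lt' (by norm_num)]
    norm_num
  linarith

end Pool.Agent.Results.MP_c3a542_nt.TrueLimit
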